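import Pool.Agent.N376.LM.Main2

/-! Consequence for graphs of the order `n ^ (2 - 1 / r)`. -/

set_option autoImplicit false

open Finset

namespace Pool.Agent.N376.LM

theorem margin (r : ℕ) (m c : ℝ) (hm : 1 < m)
    (hmr : ((m - 1) / (m + 1)) ^ 2 < 1 - 1 / (r : ℝ)) (hc : 0 < c) :
    ∃ n₀ : ℕ, ∀ (V : Type) [Fintype V] (G : SimpleGraph V), n₀ ≤ Fintype.card V →
      (completeBipartiteGraph (Fin r) (Fin r)).Free G →
      c * (Fintype.card V : ℝ) ^ (2 - 1 / (r : ℝ)) ≤ Nat.card G.edgeSet →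
      ∀ (H : Type) [NormedAddCommGroup H] [InnerProductSpace ℝ H] (u v : V → H),
        (∀ x, ‖u x‖ ≤ 1) → (∀ x, ‖v x‖ ≤ 1) →
        ∃ x y, x ≠ y ∧ ((G.Adj x y ∧ inner ℝ (u x) (v y) < 1 / m) ∨
          (¬ G.Adj x y ∧ -(1 / m) < inner ℝ (u x) (v y))) := by
  set ρ := ((m - 1) / (m + 1)) ^ 2 with hρ
  set ε := (1 - 1 / (r : ℝ) - ρ) / 2 with hε
  have hε0 : 0 < ε := by rw [hε]; linarith
  have hm0 : 0 < m := by linarith
  have hm1 : 1 / m < 1 := by rw [div_lt_one hm0]; exact hm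
  have hm2 : 0 < 1 / m := by positivity
  set C := cst r (1 / m) (-(1 / m)) ε with hC
  have hC0 : 0 ≤ C := by
    rw [hC]; unfold cst; positivity
  have hρ' : (1 - 1 / m) * (1 + -(1 / m)) / ((1 + 1 / m) * (1 - -(1 / m))) = ρ := by
    have hm3 : m + 1 ≠ 0 := by positivity
    have e1 : 1 - 1 / m = (m - 1) / m := by field_simp
    have e2 : 1 + 1 / m = (m + 1) / m := by field_simp
    have e3 : 1 + -(1 / m) = (m - 1) / m := by field_simp; ring
    have e4 : 1 - -(1 / m) = (m + 1) / m := by field_simp; ring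
    rw [hρ, e1, e2, e3, e4]
    field_simp
  -- choose n₀
  obtain ⟨n₀, hn₀⟩ := exists_nat_gt (((C + 1) / c) ^ (1 / ε))
  refine ⟨n₀ + 1, fun V _ G hV hG hE H _ _ u v hu hv => ?_⟩
  by_contra hcon
  push Not at hcon
  have h1 : ∀ x y, G.Adj x y → 1 / m ≤ inner ℝ (u x) (v y) :=
    fun x y h => (hcon x y h.ne).1 h
  have h2 : ∀ x y, x ≠ y → ¬ G.Adj x y → inner ℝ (u x) (v y) ≤ -(1 / m) :=
    fun x y hxy h => (hcon x y hxy).2 h
  have hb := bound r (1 / m) (-(1 / m)) ε (by linarith) (by linarith) hm1.le hε0 G u v hu hv h1 h2 hG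
  rw [hρ', ← hC] at hb
  have hN : (n₀ : ℝ) + 1 ≤ (Fintype.card V : ℝ) := by exact_mod_cast hV
  set N : ℝ := (Fintype.card V : ℝ) with hNdef
  have hn0 : (0 : ℝ) ≤ n₀ := Nat.cast_nonneg _
  have hN0 : 0 < N := by linarith
  have h3 : c * N ^ (2 - 1 / (r : ℝ)) ≤ C * N ^ (1 + ρ + ε) := hE.trans hb
  have h4 : N ^ (2 - 1 / (r : ℝ)) = N ^ (1 + ρ + ε) * N ^ ε := by
    rw [← Real.rpow_add hN0]
    congr 1
    rw [hε]; ring
  rw [h4] at h3
  have hp : 0 < N ^ (1 + ρ + ε) := Real.rpow_pos_of_pos hN0 _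
  have h5 : c * N ^ ε ≤ C := by
    have : N ^ (1 + ρ + ε) * (c * N ^ ε) ≤ N ^ (1 + ρ + ε) * C := by
      calc N ^ (1 + ρ + ε) * (c * N ^ ε) = c * (N ^ (1 + ρ + ε) * N ^ ε) := by ring
        _ ≤ C * N ^ (1 + ρ + ε) := h3
        _ = _ := by ring
    exact le_of_mul_le_mul_left this hp
  have h6 : N ^ ε < (C + 1) / c := by
    rw [lt_div_iff₀ hc]; linarith
  have h7 : N < ((C + 1) / c) ^ (1 / ε) := by
    have h8 := Real.rpow_lt_rpow (Real.rpow_nonneg hN0.le ε) h6 (by positivity : (0 : ℝ) < 1 / ε)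
    rw [← Real.rpow_mul hN0.le, mul_one_div_cancel hε0.ne', Real.rpow_one] at h8
    exact h8
  linarith

end Pool.Agent.N376.LM
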