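import Mathlib

/-! Two Gaussian variables: the probability that both are large. -/

set_option autoImplicit false

open MeasureTheory ProbabilityTheory Finset

namespace Pool.Agent.N376.LM

variable {ι : Type} [Fintype ι]

/-- the standard Gaussian measure -/
noncomputable def gam (ι : Type) [Fintype ι] : Measure (ι → ℝ) :=
  Measure.pi fun _ => gaussianReal 0 1

instance : IsProbabilityMeasure (gam ι) := by unfold gam; infer_instance

/-- linear form -/
noncomputable def lf (w g : ι → ℝ) : ℝ := ∑ i, w i * g i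

lemma measurable_lf (w : ι → ℝ) : Measurable (lf w) := by
  unfold lf
  fun_prop

lemma exp_lf (w g : ι → ℝ) : Real.exp (lf w g) = ∏ i, Real.exp (w i * g i) := by
  unfold lf
  rw [Real.exp_sum]

lemma integrable_exp_lf (w : ι → ℝ) : Integrable (fun g => Real.exp (lf w g)) (gam ι) := by
  simp_rw [exp_lf]
  unfold gam
  apply Integrable.fintype_prod (f := fun (i : ι) (x : ℝ) => Real.exp (w i * x))
  intro i
  exact integrable_exp_mul_gaussianReal (w i)

lemma integral_exp_lf (w : ι → ℝ) :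
    ∫ g, Real.exp (lf w g) ∂(gam ι) = Real.exp ((∑ i, w i ^ 2) / 2) := by
  simp_rw [exp_lf]
  unfold gam
  rw [integral_fintype_prod_eq_prod (f := fun (i : ι) (x : ℝ) => Real.exp (w i * x))]
  rw [sum_div, Real.exp_sum]
  apply prod_congr rfl
  intro i _
  have h := congrFun (mgf_id_gaussianReal (μ := 0) (v := 1)) (w i)
  unfold mgf at h
  simpa using h

/-- Markov inequality for the exponential -/
lemma chernoff (w : ι → ℝ) (c : ℝ) :
    (gam ι).real {g | c ≤ lf w g} ≤ Real.exp ((∑ i, w i ^ 2) / 2 - c) := by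
  have h := mul_meas_ge_le_integral_of_nonneg (μ := gam ι) (f := fun g => Real.exp (lf w g))
    (Filter.Eventually.of_forall fun g => (Real.exp_pos _).le) (integrable_exp_lf w) (Real.exp c)
  rw [integral_exp_lf] at h
  have hset : {g : ι → ℝ | Real.exp c ≤ Real.exp (lf w g)} = {g | c ≤ lf w g} := by
    ext g; simp
  rw [hset] at h
  rw [Real.exp_sub, le_div_iff₀ (Real.exp_pos _), mul_comm]
  exact h

lemma lf_add (w z g : ι → ℝ) : lf (w + z) g = lf w g + lf z g := by
  unfold lf; simp [add_mul, sum_add_distrib]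

lemma lf_smul (c : ℝ) (w g : ι → ℝ) : lf (c • w) g = c * lf w g := by
  unfold lf; simp [mul_sum, mul_assoc]

lemma sq_comb (p q : ι → ℝ) (hp : ∑ i, p i ^ 2 = 1) (hq : ∑ i, q i ^ 2 = 1) (α β : ℝ) :
    ∑ i, ((α • p + β • q) i) ^ 2 = α ^ 2 + β ^ 2 + 2 * α * β * ∑ i, p i * q i := by
  have : ∀ i, ((α • p + β • q) i) ^ 2 = α ^ 2 * p i ^ 2 + β ^ 2 * q i ^ 2 +
      2 * α * β * (p i * q i) := by
    intro i; simp only [Pi.add_apply, Pi.smul_apply, smul_eq_mul]; ring
  simp_rw [this, sum_add_distrib, ← mul_sum, hp, hq]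
  ring

lemma one_le (p : ι → ℝ) (hp : ∑ i, p i ^ 2 = 1) (τ : ℝ) (hτ : 0 ≤ τ) :
    (gam ι).real {g | τ ≤ lf p g} ≤ Real.exp (-(τ ^ 2 / 2)) := by
  have h := chernoff (τ • p) (τ ^ 2)
  have h1 : ∑ i, (τ • p) i ^ 2 = τ ^ 2 := by
    simp only [Pi.smul_apply, smul_eq_mul, mul_pow, ← mul_sum, hp, mul_one]
  rw [h1] at h
  refine le_trans (measureReal_mono ?_) (le_trans h (le_of_eq ?_))
  · intro g hg
    simp only [Set.mem_ofPred_eq] at hg ⊢
    rw [lf_smul]
    nlinarith
  · congr 1; ring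

lemma two_le (p q : ι → ℝ) (hp : ∑ i, p i ^ 2 = 1) (hq : ∑ i, q i ^ 2 = 1) (b : ℝ)
    (hb : -1 < b) (h : ∑ i, p i * q i ≤ b) (τ : ℝ) (hτ : 0 ≤ τ) :
    (gam ι).real {g | τ ≤ lf p g ∧ τ ≤ lf q g} ≤ Real.exp (-(τ ^ 2 / (1 + b))) := by
  have hb1 : 0 < 1 + b := by linarith
  set lam := τ / (1 + b) with hlam
  have hl0 : 0 ≤ lam := by positivity
  have hl1 : lam * (1 + b) = τ := by rw [hlam]; field_simp
  have h0 := chernoff (lam • p + lam • q) (2 * lam * τ)
  rw [sq_comb p q hp hq] at h0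
  refine le_trans (measureReal_mono ?_) (le_trans h0 ?_)
  · rintro g ⟨hg1, hg2⟩
    simp only [Set.mem_ofPred_eq] at *
    rw [lf_add, lf_smul, lf_smul]
    nlinarith
  · apply Real.exp_le_exp.2
    have h2 : lam ^ 2 * (∑ i, p i * q i) ≤ lam ^ 2 * b :=
      mul_le_mul_of_nonneg_left h (sq_nonneg _)
    have h3 : τ ^ 2 / (1 + b) = lam * τ := by rw [hlam]; ring
    rw [h3]
    nlinarith

lemma exp_num : Real.exp (-(9 / 2)) ≤ 1 / 8 := by
  have h1 : (8 : ℝ) ≤ Real.exp (9 / 2) := by
    have h2 : (2 : ℝ) ≤ Real.exp 1 := by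
      have := Real.add_one_le_exp (1 : ℝ); linarith
    have h3 : Real.exp 3 ≤ Real.exp (9 / 2) := Real.exp_le_exp.2 (by norm_num)
    have h4 : Real.exp 3 = Real.exp 1 ^ 3 := by rw [← Real.exp_nat_mul]; norm_num
    have h5 : (2 : ℝ) ^ 3 ≤ Real.exp 1 ^ 3 := pow_le_pow_left₀ (by norm_num) h2 3
    rw [h4] at h3
    linarith
  rw [Real.exp_neg, inv_eq_one_div]
  exact one_div_le_one_div_of_le (by norm_num) h1

lemma two_ge (p q : ι → ℝ) (hp : ∑ i, p i ^ 2 = 1) (hq : ∑ i, q i ^ 2 = 1) (a : ℝ)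
    (ha : -1 < a) (h : a ≤ ∑ i, p i * q i) (τ : ℝ) (hτ : 0 ≤ τ) :
    Real.exp (-((τ + 3) * (τ + 9) / (1 + a))) / 2 ≤
      (gam ι).real {g | τ ≤ lf p g ∧ τ ≤ lf q g} := by
  set r := ∑ i, p i * q i with hr
  have hr1 : 0 < 1 + r := by linarith
  have ha1 : 0 < 1 + a := by linarith
  set lam := (τ + 3) / (1 + r) with hlam
  have hl0 : 0 ≤ lam := by positivity
  have hl1 : lam * (1 + r) = τ + 3 := by rw [hlam]; field_simp
  set Γ : Set (ι → ℝ) := {g | (τ ≤ lf p g ∧ τ ≤ lf q g) ∧ (lf p g ≤ τ + 6 ∧ lf q g ≤ τ + 6)}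
    with hΓ
  have hΓm : MeasurableSet Γ := by
    rw [hΓ]
    have mp := measurable_lf p
    have mq := measurable_lf q
    apply MeasurableSet.inter
    · exact (measurableSet_le measurable_const mp).inter (measurableSet_le measurable_const mq)
    · exact (measurableSet_le mp measurable_const).inter (measurableSet_le mq measurable_const)
  have hZ : ∀ α β : ℝ, ∫ g, Real.exp (lf (α • p + β • q) g) ∂(gam ι) =
      Real.exp ((α ^ 2 + β ^ 2 + 2 * α * β * r) / 2) := by
    intro α β
    rw [integral_exp_lf, sq_comb p q hp hq]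
  set EZ := Real.exp (lam * (τ + 3)) with hEZ
  have hEZ0 : 0 < EZ := Real.exp_pos _
  have hE0 : ∫ g, Real.exp (lf (lam • p + lam • q) g) ∂(gam ι) = EZ := by
    rw [hZ, hEZ]
    congr 1
    rw [← hl1]; ring
  have hpt : ∀ g, Real.exp (lf (lam • p + lam • q) g) ≤
      Γ.indicator (fun _ => Real.exp (2 * lam * (τ + 6))) g +
      (Real.exp (lf ((lam + 3) • p + lam • q) g) * Real.exp (-(3 * (τ + 6))) +
       Real.exp (lf ((lam - 3) • p + lam • q) g) * Real.exp (3 * τ) +
       Real.exp (lf (lam • p + (lam + 3) • q) g) * Real.exp (-(3 * (τ + 6))) +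
       Real.exp (lf (lam • p + (lam - 3) • q) g) * Real.exp (3 * τ)) := by
    intro g
    simp only [lf_add, lf_smul, ← Real.exp_add]
    have e1 := (Real.exp_pos ((lam + 3) * lf p g + lam * lf q g + -(3 * (τ + 6)))).le
    have e2 := (Real.exp_pos ((lam - 3) * lf p g + lam * lf q g + 3 * τ)).le
    have e3 := (Real.exp_pos (lam * lf p g + (lam + 3) * lf q g + -(3 * (τ + 6)))).le
    have e4 := (Real.exp_pos (lam * lf p g + (lam - 3) * lf q g + 3 * τ)).le
    by_cases hg : g ∈ Γ
    · rw [Set.indicator_of_mem hg]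
      obtain ⟨_, h3, h4⟩ := hg
      have : Real.exp (lam * lf p g + lam * lf q g) ≤ Real.exp (2 * lam * (τ + 6)) := by
        apply Real.exp_le_exp.2
        nlinarith
      linarith
    · rw [Set.indicator_of_notMem hg]
      by_cases h1 : τ ≤ lf p g
      · by_cases h2 : τ ≤ lf q g
        · by_cases h3 : lf p g ≤ τ + 6
          · have h4 : ¬ lf q g ≤ τ + 6 := fun h4 => hg ⟨⟨h1, h2⟩, h3, h4⟩
            push Not at h4
            have : Real.exp (lam * lf p g + lam * lf q g) ≤
                Real.exp (lam * lf p g + (lam + 3) * lf q g + -(3 * (τ + 6))) := by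
              apply Real.exp_le_exp.2; nlinarith
            linarith
          · push Not at h3
            have : Real.exp (lam * lf p g + lam * lf q g) ≤
                Real.exp ((lam + 3) * lf p g + lam * lf q g + -(3 * (τ + 6))) := by
              apply Real.exp_le_exp.2; nlinarith
            linarith
        · push Not at h2
          have : Real.exp (lam * lf p g + lam * lf q g) ≤
              Real.exp (lam * lf p g + (lam - 3) * lf q g + 3 * τ) := by
            apply Real.exp_le_exp.2; nlinarith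
          linarith
      · push Not at h1
        have : Real.exp (lam * lf p g + lam * lf q g) ≤
            Real.exp ((lam - 3) * lf p g + lam * lf q g + 3 * τ) := by
          apply Real.exp_le_exp.2; nlinarith
        linarith
  have hi : ∀ α β c : ℝ, Integrable (fun g => Real.exp (lf (α • p + β • q) g) * c) (gam ι) :=
    fun α β c => (integrable_exp_lf _).mul_const c
  set F0 : (ι → ℝ) → ℝ := fun g => Γ.indicator (fun _ => Real.exp (2 * lam * (τ + 6))) g with hF0
  set F1 : (ι → ℝ) → ℝ := fun g =>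
    Real.exp (lf ((lam + 3) • p + lam • q) g) * Real.exp (-(3 * (τ + 6))) with hF1
  set F2 : (ι → ℝ) → ℝ := fun g =>
    Real.exp (lf ((lam - 3) • p + lam • q) g) * Real.exp (3 * τ) with hF2
  set F3 : (ι → ℝ) → ℝ := fun g =>
    Real.exp (lf (lam • p + (lam + 3) • q) g) * Real.exp (-(3 * (τ + 6))) with hF3
  set F4 : (ι → ℝ) → ℝ := fun g =>
    Real.exp (lf (lam • p + (lam - 3) • q) g) * Real.exp (3 * τ) with hF4
  have i0 : Integrable F0 (gam ι) := (integrable_const (Real.exp (2 * lam * (τ + 6)))).indicator hΓm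
  have i1 : Integrable F1 (gam ι) := hi _ _ _
  have i2 : Integrable F2 (gam ι) := hi _ _ _
  have i3 : Integrable F3 (gam ι) := hi _ _ _
  have i4 : Integrable F4 (gam ι) := hi _ _ _
  have i12 : Integrable (fun g => F1 g + F2 g) (gam ι) := i1.add i2
  have i123 : Integrable (fun g => F1 g + F2 g + F3 g) (gam ι) := i12.add i3
  have i1234 : Integrable (fun g => F1 g + F2 g + F3 g + F4 g) (gam ι) := i123.add i4
  have i01234 : Integrable (fun g => F0 g + (F1 g + F2 g + F3 g + F4 g)) (gam ι) := i0.add i1234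
  have hint := integral_mono (integrable_exp_lf (lam • p + lam • q)) i01234 hpt
  have hsum : ∫ g, (F0 g + (F1 g + F2 g + F3 g + F4 g)) ∂(gam ι) =
      (gam ι).real Γ * Real.exp (2 * lam * (τ + 6)) + 4 * (EZ * Real.exp (-(9 / 2))) := by
    rw [integral_add i0 i1234, integral_add i123 i4, integral_add i12 i3, integral_add i1 i2]
    rw [hF0, integral_indicator hΓm, setIntegral_const, smul_eq_mul, hF1, hF2, hF3, hF4]
    rw [integral_mul_const, integral_mul_const, integral_mul_const, integral_mul_const,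
      hZ, hZ, hZ, hZ]
    simp only [hEZ, ← Real.exp_add]
    have q1 : ((lam + 3) ^ 2 + lam ^ 2 + 2 * (lam + 3) * lam * r) / 2 + -(3 * (τ + 6)) =
        lam * (τ + 3) + -(9 / 2) := by
      have : τ = lam * (1 + r) - 3 := by linarith
      rw [this]; ring
    have q2 : ((lam - 3) ^ 2 + lam ^ 2 + 2 * (lam - 3) * lam * r) / 2 + 3 * τ =
        lam * (τ + 3) + -(9 / 2) := by
      have : τ = lam * (1 + r) - 3 := by linarith
      rw [this]; ring
    have q3 : (lam ^ 2 + (lam + 3) ^ 2 + 2 * lam * (lam + 3) * r) / 2 + -(3 * (τ + 6)) =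
        lam * (τ + 3) + -(9 / 2) := by
      have : τ = lam * (1 + r) - 3 := by linarith
      rw [this]; ring
    have q4 : (lam ^ 2 + (lam - 3) ^ 2 + 2 * lam * (lam - 3) * r) / 2 + 3 * τ =
        lam * (τ + 3) + -(9 / 2) := by
      have : τ = lam * (1 + r) - 3 := by linarith
      rw [this]; ring
    rw [q1, q2, q3, q4]
    ring
  have hint2 : EZ ≤ (gam ι).real Γ * Real.exp (2 * lam * (τ + 6)) +
      4 * (EZ * Real.exp (-(9 / 2))) := by
    rw [hE0, hsum] at hint
    exact hint
  have hnum := exp_num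
  have hG1 : EZ / 2 ≤ (gam ι).real Γ * Real.exp (2 * lam * (τ + 6)) := by nlinarith
  have hG2 : Real.exp (lam * (τ + 3) - 2 * lam * (τ + 6)) / 2 ≤ (gam ι).real Γ := by
    rw [Real.exp_sub]
    have hp' := Real.exp_pos (2 * lam * (τ + 6))
    rw [div_div, div_le_iff₀ (by positivity)]
    rw [hEZ] at hG1
    linarith
  refine le_trans ?_ (le_trans hG2 (measureReal_mono ?_))
  · have : Real.exp (-((τ + 3) * (τ + 9) / (1 + a))) ≤
        Real.exp (lam * (τ + 3) - 2 * lam * (τ + 6)) := by
      apply Real.exp_le_exp.2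
      have h1 : lam * (τ + 3) - 2 * lam * (τ + 6) = -((τ + 3) * (τ + 9) / (1 + r)) := by
        rw [hlam]; ring
      rw [h1]
      apply neg_le_neg
      apply div_le_div_of_nonneg_left (by positivity) ha1 (by linarith)
    linarith
  · intro g hg
    exact hg.1

end Pool.Agent.N376.LM
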