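import Mathlib

/-! Edges between two sets of vertices in a graph without `K_{t,t}`: a linear form of the bound of
Kővári, Sós and Turán. -/

set_option autoImplicit false

open Finset

namespace Pool.Agent.N376.LM

lemma choose_le (s h t : ℕ) (hs : 4 * t ≤ s) (hh : s ≤ 2 * h) :
    s.choose t ≤ 4 ^ t * h.choose t := by
  have h1 : s.descFactorial t ≤ 4 ^ t * h.descFactorial t := by
    rw [Nat.descFactorial_eq_prod_range, Nat.descFactorial_eq_prod_range]
    have : (4 : ℕ) ^ t = ∏ _i ∈ range t, 4 := by simp
    rw [this, ← prod_mul_distrib]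
    apply prod_le_prod'
    intro i hi
    have := mem_range.1 hi
    omega
  rw [Nat.descFactorial_eq_factorial_mul_choose, Nat.descFactorial_eq_factorial_mul_choose] at h1
  have hpos := Nat.factorial_pos t
  have h2 : t.factorial * s.choose t ≤ t.factorial * (4 ^ t * h.choose t) := by
    calc t.factorial * s.choose t ≤ 4 ^ t * (t.factorial * h.choose t) := h1
      _ = _ := by ring
  exact Nat.le_of_mul_le_mul_left h2 hpos

variable {V : Type*} [DecidableEq V] (G : SimpleGraph V) [DecidableRel G.Adj]

/-- common neighbours of `t` vertices: fewer than `t` of them -/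
lemma common_lt (t : ℕ) (hG : (completeBipartiteGraph (Fin t) (Fin t)).Free G)
    (P Q : Finset V) (hP : P.card = t) (hPQ : ∀ x ∈ P, ∀ y ∈ Q, G.Adj x y) : Q.card ≤ t := by
  by_contra hcon
  push Not at hcon
  obtain ⟨Q', hQ', hc⟩ := exists_subset_card_eq (show t ≤ Q.card by omega)
  apply hG
  rw [SimpleGraph.completeBipartiteGraph_isContained_iff]
  refine ⟨P, Q', by simpa using hP, by simpa using hc, ?_⟩
  intro x hx y hy
  exact hPQ x hx y (hQ' hy)

theorem edges_le (t : ℕ) (hG : (completeBipartiteGraph (Fin t) (Fin t)).Free G)
    (S T : Finset V) :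
    (∑ y ∈ T, ((S.filter fun x => G.Adj x y).card : ℝ)) ≤
      (S.card : ℝ) * T.card / 2 + t * 4 ^ t * S.card + 4 * t * T.card := by
  set d : V → ℕ := fun y => (S.filter fun x => G.Adj x y).card with hd
  have hdS : ∀ y, d y ≤ S.card := fun y => card_filter_le _ _
  rcases lt_or_ge S.card (4 * t) with hlt | hge
  · have h1 : (∑ y ∈ T, (d y : ℝ)) ≤ ∑ _y ∈ T, (4 * t : ℝ) := by
      apply sum_le_sum
      intro y _
      have : d y ≤ 4 * t := le_trans (hdS y) hlt.le
      exact_mod_cast this
    rw [sum_const, nsmul_eq_mul] at h1
    have h2 : (0 : ℝ) ≤ (S.card : ℝ) * T.card / 2 + t * 4 ^ t * S.card := by positivity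
    linarith [mul_comm (T.card : ℝ) (4 * (t : ℝ))]
  · set T0 := T.filter fun y => S.card ≤ 2 * d y with hT0
    set h := (S.card + 1) / 2 with hh
    have hh2 : S.card ≤ 2 * h := by omega
    have hcount : T0.card * h.choose t ≤ t * S.card.choose t := by
      calc T0.card * h.choose t = ∑ _y ∈ T0, h.choose t := by rw [sum_const, smul_eq_mul]
        _ ≤ ∑ y ∈ T0, (d y).choose t := by
            apply sum_le_sum
            intro y hy
            have : h ≤ d y := by
              have := (mem_filter.1 hy).2
              omega
            exact Nat.choose_le_choose t this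
        _ = ∑ y ∈ T0, ((powersetCard t S).filter fun P => ∀ x ∈ P, G.Adj x y).card := by
            apply sum_congr rfl
            intro y _
            have : ((powersetCard t S).filter fun P => ∀ x ∈ P, G.Adj x y) =
                powersetCard t (S.filter fun x => G.Adj x y) := by
              ext P
              simp only [mem_filter, mem_powersetCard, subset_iff]
              constructor
              · rintro ⟨⟨h1, h2⟩, h3⟩
                exact ⟨fun x hx => ⟨h1 hx, h3 x hx⟩, h2⟩
              · rintro ⟨h1, h2⟩
                exact ⟨⟨fun x hx => (h1 hx).1, h2⟩, fun x hx => (h1 hx).2⟩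
            rw [this, card_powersetCard]
        _ = ∑ P ∈ powersetCard t S, (T0.filter fun y => ∀ x ∈ P, G.Adj x y).card := by
            simp only [card_filter]
            rw [sum_comm]
        _ ≤ ∑ _P ∈ powersetCard t S, t := by
            apply sum_le_sum
            intro P hP
            apply common_lt G t hG P _ (mem_powersetCard.1 hP).2
            intro x hx y hy
            exact (mem_filter.1 hy).2 x hx
        _ = t * S.card.choose t := by
            rw [sum_const, card_powersetCard, smul_eq_mul, mul_comm]
    have hch := choose_le S.card h t hge hh2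
    have hpos : 0 < h.choose t := Nat.choose_pos (by omega)
    have hT0le : T0.card ≤ t * 4 ^ t := by
      have : T0.card * h.choose t ≤ (t * 4 ^ t) * h.choose t := by
        calc T0.card * h.choose t ≤ t * S.card.choose t := hcount
          _ ≤ t * (4 ^ t * h.choose t) := Nat.mul_le_mul_left t hch
          _ = _ := by ring
      exact Nat.le_of_mul_le_mul_right this hpos
    have hsplit : (∑ y ∈ T, (d y : ℝ)) =
        ∑ y ∈ T0, (d y : ℝ) + ∑ y ∈ T.filter (fun y => ¬ S.card ≤ 2 * d y), (d y : ℝ) :=
      (sum_filter_add_sum_filter_not T _ _).symm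
    rw [hsplit]
    have h1 : (∑ y ∈ T0, (d y : ℝ)) ≤ (t * 4 ^ t) * S.card := by
      calc (∑ y ∈ T0, (d y : ℝ)) ≤ ∑ _y ∈ T0, (S.card : ℝ) := by
            apply sum_le_sum
            intro y _
            exact_mod_cast hdS y
        _ = T0.card * S.card := by rw [sum_const, nsmul_eq_mul]
        _ ≤ (t * 4 ^ t) * S.card := by
            have : (T0.card : ℝ) ≤ t * 4 ^ t := by exact_mod_cast hT0le
            gcongr
    have h2 : (∑ y ∈ T.filter (fun y => ¬ S.card ≤ 2 * d y), (d y : ℝ)) ≤
        (S.card : ℝ) * T.card / 2 := by
      calc (∑ y ∈ T.filter (fun y => ¬ S.card ≤ 2 * d y), (d y : ℝ))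
          ≤ ∑ _y ∈ T.filter (fun y => ¬ S.card ≤ 2 * d y), (S.card : ℝ) / 2 := by
            apply sum_le_sum
            intro y hy
            have h3 := (mem_filter.1 hy).2
            push Not at h3
            have h4 : (2 : ℝ) * d y ≤ S.card := by exact_mod_cast h3.le
            linarith
        _ ≤ ∑ _y ∈ T, (S.card : ℝ) / 2 := by
            apply sum_le_sum_of_subset_of_nonneg (filter_subset _ _)
            intro _ _ _
            positivity
        _ = (S.card : ℝ) * T.card / 2 := by rw [sum_const, nsmul_eq_mul]; ring
    have h5 : (0 : ℝ) ≤ 4 * t * T.card := by positivity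
    linarith

end Pool.Agent.N376.LM
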