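import Pool.Agent.N376.LM.Kst
import Pool.Agent.N376.LM.Gauss

/-! Graphs without `K_{t,t}` given by half-spaces with a margin: the bound. -/

set_option autoImplicit false

open MeasureTheory ProbabilityTheory Finset

namespace Pool.Agent.N376.LM

/-- the bound for a fixed height `τ` of the caps, coordinates -/
theorem caps {ι : Type} [Fintype ι] {V : Type*} [Fintype V] [DecidableEq V]
    (G : SimpleGraph V) [DecidableRel G.Adj] (t : ℕ)
    (hG : (completeBipartiteGraph (Fin t) (Fin t)).Free G)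
    (p q : V → ι → ℝ) (hp : ∀ x, ∑ i, p x i ^ 2 = 1) (hq : ∀ x, ∑ i, q x i ^ 2 = 1)
    (a b : ℝ) (ha : -1 < a) (hb : -1 < b)
    (h1 : ∀ x y, G.Adj x y → a ≤ ∑ i, p x i * q y i)
    (h2 : ∀ x y, x ≠ y → ¬ G.Adj x y → ∑ i, p x i * q y i ≤ b) (τ : ℝ) (hτ : 0 ≤ τ) :
    (∑ y : V, ((univ.filter fun x => G.Adj x y).card : ℝ)) *
        Real.exp (-((τ + 3) * (τ + 9) / (1 + a))) ≤
      2 * ((Fintype.card V : ℝ) ^ 2 * Real.exp (-(τ ^ 2 / (1 + b))) +
        (1 + 2 * t * 4 ^ t + 8 * t) * Fintype.card V * Real.exp (-(τ ^ 2 / 2))) := by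
  classical
  set N : ℝ := (Fintype.card V : ℝ) with hN
  set A : V → Set (ι → ℝ) := fun x => {g | τ ≤ lf (p x) g} with hA
  set B : V → Set (ι → ℝ) := fun y => {g | τ ≤ lf (q y) g} with hB
  have mA : ∀ x, MeasurableSet (A x) := fun x => measurableSet_le measurable_const (measurable_lf _)
  have mB : ∀ x, MeasurableSet (B x) := fun x => measurableSet_le measurable_const (measurable_lf _)
  have mAB : ∀ x y, MeasurableSet (A x ∩ B y) := fun x y => (mA x).inter (mB y)
  -- pointwise
  have hpt : ∀ g : ι → ℝ,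
      (∑ y, ∑ x, (if G.Adj x y then (A x ∩ B y).indicator (fun _ => (1 : ℝ)) g else 0)) ≤
      (∑ y, ∑ x, (A x ∩ B y).indicator (fun _ => (1 : ℝ)) g) * (1 / 2) +
      (∑ x, (A x).indicator (fun _ => (1 : ℝ)) g) * (t * 4 ^ t) +
      (∑ y, (B y).indicator (fun _ => (1 : ℝ)) g) * (4 * t) := by
    intro g
    set S := univ.filter fun x => g ∈ A x with hS
    set T := univ.filter fun y => g ∈ B y with hT
    have e0 := edges_le G t hG S T
    have e1 : (∑ x, (A x).indicator (fun _ => (1 : ℝ)) g) = S.card := by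
      simp only [Set.indicator_apply, hS, card_filter]
      push_cast
      rfl
    have e2 : (∑ x, (B x).indicator (fun _ => (1 : ℝ)) g) = T.card := by
      simp only [Set.indicator_apply, hT, card_filter]
      push_cast
      rfl
    have e3 : (∑ y, ∑ x, (A x ∩ B y).indicator (fun _ => (1 : ℝ)) g) = S.card * T.card := by
      rw [← e1, ← e2, Finset.sum_mul_sum, sum_comm]
      apply sum_congr rfl; intro x _
      apply sum_congr rfl; intro y _
      simp only [Set.indicator_apply, Set.mem_inter_iff]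
      by_cases hx : g ∈ A x <;> by_cases hy : g ∈ B y <;> simp [hx, hy]
    have e4 : (∑ y, ∑ x, (if G.Adj x y then (A x ∩ B y).indicator (fun _ => (1 : ℝ)) g else 0)) =
        ∑ y ∈ T, ((S.filter fun x => G.Adj x y).card : ℝ) := by
      rw [hT, sum_filter]
      apply sum_congr rfl; intro y _
      by_cases hy : g ∈ B y
      · rw [if_pos hy, hS, filter_filter, card_filter]
        push_cast
        apply sum_congr rfl; intro x _
        simp only [Set.indicator_apply, Set.mem_inter_iff]
        by_cases hx : g ∈ A x <;> by_cases hxy : G.Adj x y <;> simp [hx, hy, hxy]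
      · rw [if_neg hy]
        apply sum_eq_zero; intro x _
        simp [hy]
    rw [e1, e2, e3, e4]
    linarith
  have iAB : ∀ x y, Integrable (fun g => (A x ∩ B y).indicator (fun _ => (1 : ℝ)) g) (gam ι) :=
    fun x y => (integrable_const (1 : ℝ)).indicator (mAB x y)
  have iA : ∀ x, Integrable (fun g => (A x).indicator (fun _ => (1 : ℝ)) g) (gam ι) :=
    fun x => (integrable_const (1 : ℝ)).indicator (mA x)
  have iB : ∀ x, Integrable (fun g => (B x).indicator (fun _ => (1 : ℝ)) g) (gam ι) :=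
    fun x => (integrable_const (1 : ℝ)).indicator (mB x)
  have iE : ∀ x y, Integrable (fun g => if G.Adj x y then
      (A x ∩ B y).indicator (fun _ => (1 : ℝ)) g else 0) (gam ι) := by
    intro x y
    by_cases h : G.Adj x y
    · simp only [h, if_true]; exact iAB x y
    · simp only [h, if_false]; exact integrable_zero _ _ _
  have i1 : Integrable (fun g => ∑ y, ∑ x, (if G.Adj x y then
      (A x ∩ B y).indicator (fun _ => (1 : ℝ)) g else 0)) (gam ι) :=
    integrable_finsetSum _ fun y _ => integrable_finsetSum _ fun x _ => iE x y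
  have i2 : Integrable (fun g => (∑ y, ∑ x, (A x ∩ B y).indicator (fun _ => (1 : ℝ)) g) * (1 / 2))
      (gam ι) :=
    (integrable_finsetSum _ fun y _ => integrable_finsetSum _ fun x _ => iAB x y).mul_const _
  have i3 : Integrable (fun g => (∑ x, (A x).indicator (fun _ => (1 : ℝ)) g) * (t * 4 ^ t))
      (gam ι) := (integrable_finsetSum _ fun x _ => iA x).mul_const _
  have i4 : Integrable (fun g => (∑ x, (B x).indicator (fun _ => (1 : ℝ)) g) * (4 * t))
      (gam ι) := (integrable_finsetSum _ fun x _ => iB x).mul_const _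
  have i23 : Integrable (fun g => (∑ y, ∑ x, (A x ∩ B y).indicator (fun _ => (1 : ℝ)) g) * (1 / 2) +
      (∑ x, (A x).indicator (fun _ => (1 : ℝ)) g) * (t * 4 ^ t)) (gam ι) := i2.add i3
  have hint := integral_mono i1 (i23.add i4) hpt
  have c1 : ∫ g, (∑ y, ∑ x, (if G.Adj x y then
      (A x ∩ B y).indicator (fun _ => (1 : ℝ)) g else 0)) ∂(gam ι) =
      ∑ y, ∑ x, (if G.Adj x y then (gam ι).real (A x ∩ B y) else 0) := by
    rw [integral_finsetSum _ fun y _ => integrable_finsetSum _ fun x _ => iE x y]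
    apply sum_congr rfl; intro y _
    rw [integral_finsetSum _ fun x _ => iE x y]
    apply sum_congr rfl; intro x _
    by_cases h : G.Adj x y
    · simp only [h, if_true]
      rw [integral_indicator (mAB x y), setIntegral_const]; simp
    · simp [h]
  have c2 : ∫ g, (∑ y, ∑ x, (A x ∩ B y).indicator (fun _ => (1 : ℝ)) g) ∂(gam ι) =
      ∑ y, ∑ x, (gam ι).real (A x ∩ B y) := by
    rw [integral_finsetSum _ fun y _ => integrable_finsetSum _ fun x _ => iAB x y]
    apply sum_congr rfl; intro y _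
    rw [integral_finsetSum _ fun x _ => iAB x y]
    apply sum_congr rfl; intro x _
    rw [integral_indicator (mAB x y), setIntegral_const]; simp
  have c3 : ∫ g, (∑ x, (A x).indicator (fun _ => (1 : ℝ)) g) ∂(gam ι) =
      ∑ x, (gam ι).real (A x) := by
    rw [integral_finsetSum _ fun x _ => iA x]
    apply sum_congr rfl; intro x _
    rw [integral_indicator (mA x), setIntegral_const]; simp
  have c4 : ∫ g, (∑ x, (B x).indicator (fun _ => (1 : ℝ)) g) ∂(gam ι) =
      ∑ x, (gam ι).real (B x) := by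
    rw [integral_finsetSum _ fun x _ => iB x]
    apply sum_congr rfl; intro x _
    rw [integral_indicator (mB x), setIntegral_const]; simp
  have hint2 : ∑ y, ∑ x, (if G.Adj x y then (gam ι).real (A x ∩ B y) else 0) ≤
      (∑ y, ∑ x, (gam ι).real (A x ∩ B y)) * (1 / 2) +
      (∑ x, (gam ι).real (A x)) * (t * 4 ^ t) + (∑ x, (gam ι).real (B x)) * (4 * t) := by
    have e : ∫ g, ((∑ y, ∑ x, (A x ∩ B y).indicator (fun _ => (1 : ℝ)) g) * (1 / 2) +
      (∑ x, (A x).indicator (fun _ => (1 : ℝ)) g) * (t * 4 ^ t) +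
      (∑ y, (B y).indicator (fun _ => (1 : ℝ)) g) * (4 * t)) ∂(gam ι) =
      (∑ y, ∑ x, (gam ι).real (A x ∩ B y)) * (1 / 2) +
      (∑ x, (gam ι).real (A x)) * (t * 4 ^ t) + (∑ x, (gam ι).real (B x)) * (4 * t) := by
      rw [integral_add i23 i4, integral_add i2 i3, integral_mul_const, integral_mul_const,
        integral_mul_const, c2, c3, c4]
    rw [← c1, ← e]
    exact hint
  -- the probabilities
  set P1 := Real.exp (-((τ + 3) * (τ + 9) / (1 + a))) with hP1
  set P0 := Real.exp (-(τ ^ 2 / (1 + b))) with hP0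
  set Q := Real.exp (-(τ ^ 2 / 2)) with hQ
  have f1 : ∀ x y, G.Adj x y → P1 / 2 ≤ (gam ι).real (A x ∩ B y) := fun x y h =>
    two_ge (p x) (q y) (hp x) (hq y) a ha (h1 x y h) τ hτ
  have f2 : ∀ x y, x ≠ y → ¬ G.Adj x y → (gam ι).real (A x ∩ B y) ≤ P0 := fun x y hxy h =>
    two_le (p x) (q y) (hp x) (hq y) b hb (h2 x y hxy h) τ hτ
  have f3 : ∀ x, (gam ι).real (A x) ≤ Q := fun x => one_le (p x) (hp x) τ hτ
  have f4 : ∀ x, (gam ι).real (B x) ≤ Q := fun x => one_le (q x) (hq x) τ hτ
  have f5 : ∀ x, (gam ι).real (A x ∩ B x) ≤ Q := fun x =>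
    le_trans (measureReal_mono Set.inter_subset_left) (f3 x)
  have g1 : ∑ y, ∑ x, (gam ι).real (A x ∩ B y) ≤
      ∑ y, ∑ x, (if G.Adj x y then (gam ι).real (A x ∩ B y) else 0) + (N ^ 2 * P0 + N * Q) := by
    have : ∀ y x, (gam ι).real (A x ∩ B y) ≤
        (if G.Adj x y then (gam ι).real (A x ∩ B y) else 0) + (P0 + if x = y then Q else 0) := by
      intro y x
      have hP0' : 0 ≤ P0 := (Real.exp_pos _).le
      have hQ' : 0 ≤ Q := (Real.exp_pos _).le
      by_cases hxy : x = y
      · subst hxy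
        simp only [SimpleGraph.irrefl, if_false, if_true]
        linarith [f5 x]
      · by_cases h : G.Adj x y
        · simp only [h, hxy, if_true, if_false]; linarith
        · simp only [h, hxy, if_false]
          linarith [f2 x y hxy h]
    refine le_trans (sum_le_sum fun y _ => sum_le_sum fun x _ => this y x) (le_of_eq ?_)
    simp only [sum_add_distrib]
    congr 1
    simp only [sum_const, card_univ, nsmul_eq_mul, sum_ite_eq', mem_univ, if_true]
    rw [← hN]
    ring
  have g2 : (∑ x, (gam ι).real (A x)) ≤ N * Q := by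
    refine le_trans (sum_le_sum fun x _ => f3 x) (le_of_eq ?_)
    rw [sum_const, card_univ, nsmul_eq_mul]
  have g3 : (∑ x, (gam ι).real (B x)) ≤ N * Q := by
    refine le_trans (sum_le_sum fun x _ => f4 x) (le_of_eq ?_)
    rw [sum_const, card_univ, nsmul_eq_mul]
  have g4 : (∑ y : V, ((univ.filter fun x => G.Adj x y).card : ℝ)) * (P1 / 2) ≤
      ∑ y, ∑ x, (if G.Adj x y then (gam ι).real (A x ∩ B y) else 0) := by
    rw [sum_mul]
    apply sum_le_sum; intro y _
    rw [card_filter]
    push_cast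
    rw [sum_mul]
    apply sum_le_sum; intro x _
    by_cases h : G.Adj x y
    · simp only [h, if_true, one_mul]; exact f1 x y h
    · simp [h]
  set E := ∑ y, ∑ x, (if G.Adj x y then (gam ι).real (A x ∩ B y) else 0) with hE
  set X := ∑ y : V, ((univ.filter fun x => G.Adj x y).card : ℝ) with hX
  have k1 : (∑ x, (gam ι).real (A x)) * (t * 4 ^ t) ≤ N * Q * (t * 4 ^ t) :=
    mul_le_mul_of_nonneg_right g2 (by positivity)
  have k2 : (∑ x, (gam ι).real (B x)) * (4 * t) ≤ N * Q * (4 * t) :=
    mul_le_mul_of_nonneg_right g3 (by positivity)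
  nlinarith [hint2, g1, k1, k2, g4]

end Pool.Agent.N376.LM
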