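import Pool.Agent.N376.LM.Main1

/-! Graphs without `K_{t,t}` given by half-spaces with a margin: final form. -/

set_option autoImplicit false

open Finset

namespace Pool.Agent.N376.LM

/-- coordinates, with two additional ones which make all vectors unit vectors -/
theorem exists_coord {V : Type*} [Fintype V] {H : Type*} [NormedAddCommGroup H]
    [InnerProductSpace ℝ H] (u v : V → H) (hu : ∀ x, ‖u x‖ ≤ 1) (hv : ∀ x, ‖v x‖ ≤ 1) :
    ∃ (ι : Type) (_ : Fintype ι) (p q : V → ι → ℝ), (∀ x, ∑ i, p x i ^ 2 = 1) ∧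
      (∀ x, ∑ i, q x i ^ 2 = 1) ∧ ∀ x y, ∑ i, p x i * q y i = inner ℝ (u x) (v y) := by
  classical
  set W := Submodule.span ℝ (Set.range u ∪ Set.range v) with hW
  have hfin : (Set.range u ∪ Set.range v).Finite := (Set.finite_range u).union (Set.finite_range v)
  have : FiniteDimensional ℝ W := FiniteDimensional.span_of_finite ℝ hfin
  set b := stdOrthonormalBasis ℝ W with hb
  set u' : V → W := fun x => ⟨u x, Submodule.subset_span (Or.inl ⟨x, rfl⟩)⟩ with hu'
  set v' : V → W := fun x => ⟨v x, Submodule.subset_span (Or.inr ⟨x, rfl⟩)⟩ with hv'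
  have hsq : ∀ w : W, ∑ i, (inner ℝ (b i) w) ^ 2 = ‖w‖ ^ 2 := by
    intro w
    rw [← b.sum_sq_norm_inner_right w]
    apply sum_congr rfl; intro i _
    rw [Real.norm_eq_abs, sq_abs]
  have hin : ∀ w z : W, ∑ i, inner ℝ (b i) w * inner ℝ (b i) z = inner ℝ w z := by
    intro w z
    rw [← b.sum_inner_mul_inner w z]
    apply sum_congr rfl; intro i _
    rw [real_inner_comm]
  refine ⟨Fin (Module.finrank ℝ W) ⊕ Fin 2, inferInstance,
    fun x => Sum.elim (fun i => inner ℝ (b i) (u' x)) ![Real.sqrt (1 - ‖u x‖ ^ 2), 0],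
    fun x => Sum.elim (fun i => inner ℝ (b i) (v' x)) ![0, Real.sqrt (1 - ‖v x‖ ^ 2)], ?_, ?_, ?_⟩
  · intro x
    have h0 : (0 : ℝ) ≤ 1 - ‖u x‖ ^ 2 := by
      have := hu x; have := norm_nonneg (u x); nlinarith
    have h1 : ‖u' x‖ = ‖u x‖ := rfl
    simp only [Fintype.sum_sum_type, Sum.elim_inl, Sum.elim_inr, Fin.sum_univ_two, hsq, h1]
    simp [Real.sq_sqrt h0]
  · intro x
    have h0 : (0 : ℝ) ≤ 1 - ‖v x‖ ^ 2 := by
      have := hv x; have := norm_nonneg (v x); nlinarith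
    have h1 : ‖v' x‖ = ‖v x‖ := rfl
    simp only [Fintype.sum_sum_type, Sum.elim_inl, Sum.elim_inr, Fin.sum_univ_two, hsq, h1]
    simp [Real.sq_sqrt h0]
  · intro x y
    simp only [Fintype.sum_sum_type, Sum.elim_inl, Sum.elim_inr, Fin.sum_univ_two, hin]
    simp [hu', hv']

/-- the constant -/
noncomputable def cst (t : ℕ) (a b ε : ℝ) : ℝ :=
  (2 + 2 * t * 4 ^ t + 8 * t) *
    Real.exp (27 / (1 + a) + 36 * (2 * (1 + b) / (1 - b)) / (ε * (1 + a) ^ 2))

theorem bound (t : ℕ) (a b ε : ℝ) (hb : -1 < b) (hab : b < a) (ha : a ≤ 1) (hε : 0 < ε)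
    {V : Type*} [Fintype V] {H : Type*} [NormedAddCommGroup H] [InnerProductSpace ℝ H]
    (G : SimpleGraph V) (u v : V → H) (hu : ∀ x, ‖u x‖ ≤ 1) (hv : ∀ x, ‖v x‖ ≤ 1)
    (h1 : ∀ x y, G.Adj x y → a ≤ inner ℝ (u x) (v y))
    (h2 : ∀ x y, x ≠ y → ¬ G.Adj x y → inner ℝ (u x) (v y) ≤ b)
    (hG : (completeBipartiteGraph (Fin t) (Fin t)).Free G) :
    (Nat.card G.edgeSet : ℝ) ≤ cst t a b ε *
      (Fintype.card V : ℝ) ^ (1 + (1 - a) * (1 + b) / ((1 + a) * (1 - b)) + ε) := by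
  classical
  have hc0 : 0 ≤ cst t a b ε := by unfold cst; positivity
  rcases isEmpty_or_nonempty V with hV | hV
  · have : IsEmpty G.edgeSet := by
      constructor
      rintro ⟨e, _⟩
      induction e with
      | _ x y => exact hV.elim x
    rw [Nat.card_of_isEmpty]
    simp only [Nat.cast_zero]
    positivity
  obtain ⟨ι, _, p, q, hp, hq, hpq⟩ := exists_coord u v hu hv
  set N : ℝ := (Fintype.card V : ℝ) with hN
  have hN1 : 1 ≤ N := by
    rw [hN]; exact_mod_cast Fintype.card_pos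
  have hN0 : 0 < N := by linarith
  set L := Real.log N with hL
  have hL0 : 0 ≤ L := Real.log_nonneg hN1
  have hNe : N = Real.exp L := (Real.exp_log hN0).symm
  have hb1 : 0 < 1 + b := by linarith
  have hb2 : 0 < 1 - b := by linarith
  have ha1 : 0 < 1 + a := by linarith
  set κ := 2 * (1 + b) / (1 - b) with hκ
  have hκ0 : 0 < κ := by positivity
  set τ := Real.sqrt (κ * L) with hτ
  have hτ0 : 0 ≤ τ := Real.sqrt_nonneg _
  have hτ2 : τ ^ 2 = κ * L := Real.sq_sqrt (by positivity)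
  have main := caps G t hG p q hp hq a b (by linarith) hb
    (fun x y h => by rw [hpq]; exact h1 x y h)
    (fun x y hxy h => by rw [hpq]; exact h2 x y hxy h) τ hτ0
  rw [← hN] at main
  have hdeg : (∑ y : V, ((univ.filter fun x => G.Adj x y).card : ℝ)) =
      2 * (Nat.card G.edgeSet : ℝ) := by
    have h := G.sum_degrees_eq_twice_card_edges
    have h' : (∑ y : V, (univ.filter fun x => G.Adj x y).card) = 2 * Nat.card G.edgeSet := by
      rw [Nat.card_eq_fintype_card, ← SimpleGraph.edgeFinset_card, ← h]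
      apply sum_congr rfl; intro y _
      rw [← SimpleGraph.card_neighborFinset_eq_degree]
      congr 1
      ext x
      simp [SimpleGraph.adj_comm]
    exact_mod_cast h'
  rw [hdeg] at main
  -- the two exponentials on the right
  set s0 := -(2 * b / (1 - b)) with hs0
  have q1 : N ^ 2 * Real.exp (-(τ ^ 2 / (1 + b))) = Real.exp (s0 * L) := by
    have : N ^ 2 = Real.exp (2 * L) := by
      rw [hNe, ← Real.exp_nat_mul]; norm_num
    rw [this, ← Real.exp_add, hτ2, hκ, hs0]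
    congr 1
    field_simp
    ring
  have q2 : N * Real.exp (-(τ ^ 2 / 2)) = Real.exp (s0 * L) := by
    rw [hNe, ← Real.exp_add, hτ2, hκ, hs0]
    congr 1
    field_simp
    ring
  have q3 : 2 * (N ^ 2 * Real.exp (-(τ ^ 2 / (1 + b))) +
      (1 + 2 * t * 4 ^ t + 8 * t) * N * Real.exp (-(τ ^ 2 / 2))) =
      2 * ((2 + 2 * t * 4 ^ t + 8 * t) * Real.exp (s0 * L)) := by
    rw [q1, mul_assoc (1 + 2 * (t : ℝ) * 4 ^ t + 8 * t) N, q2]
    ring
  rw [q3] at main
  have main2 : (Nat.card G.edgeSet : ℝ) * Real.exp (-((τ + 3) * (τ + 9) / (1 + a))) ≤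
      (2 + 2 * t * 4 ^ t + 8 * t) * Real.exp (s0 * L) := by linarith
  have main3 : (Nat.card G.edgeSet : ℝ) ≤ (2 + 2 * t * 4 ^ t + 8 * t) *
      Real.exp (s0 * L + (τ + 3) * (τ + 9) / (1 + a)) := by
    rw [Real.exp_add, ← mul_assoc]
    rw [Real.exp_neg] at main2
    have hpos := Real.exp_pos ((τ + 3) * (τ + 9) / (1 + a))
    rw [← div_eq_mul_inv, div_le_iff₀ hpos] at main2
    exact main2
  refine le_trans main3 ?_
  have hrpow : N ^ (1 + (1 - a) * (1 + b) / ((1 + a) * (1 - b)) + ε) =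
      Real.exp (L * (1 + (1 - a) * (1 + b) / ((1 + a) * (1 - b)) + ε)) := by
    rw [Real.rpow_def_of_pos hN0]
  rw [hrpow]
  unfold cst
  rw [mul_assoc (2 + 2 * (t : ℝ) * 4 ^ t + 8 * t), ← Real.exp_add]
  apply mul_le_mul_of_nonneg_left _ (by positivity)
  apply Real.exp_le_exp.2
  have hε' : 0 < ε * (1 + a) := by positivity
  -- 12 τ ≤ ε (1 + a) L + 36 κ / (ε (1 + a))
  have h12 : 12 * τ ≤ ε * (1 + a) * L + 36 * κ / (ε * (1 + a)) := by
    have h0 : 0 ≤ (ε * (1 + a) / κ) * (τ - 6 * κ / (ε * (1 + a))) ^ 2 := by positivity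
    have h3 : (ε * (1 + a) / κ) * (τ - 6 * κ / (ε * (1 + a))) ^ 2 =
        ε * (1 + a) * (τ ^ 2 / κ) - 12 * τ + 36 * κ / (ε * (1 + a)) := by
      field_simp
      ring
    have h4 : τ ^ 2 / κ = L := by rw [hτ2]; field_simp
    rw [h3, h4] at h0
    linarith
  have h5 : (τ + 3) * (τ + 9) / (1 + a) = (κ * L + 12 * τ + 27) / (1 + a) := by
    rw [← hτ2]; ring
  have h6 : (κ * L + 12 * τ + 27) / (1 + a) ≤
      (κ * L + (ε * (1 + a) * L + 36 * κ / (ε * (1 + a))) + 27) / (1 + a) := by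
    apply div_le_div_of_nonneg_right _ ha1.le
    linarith
  rw [h5]
  refine le_trans (add_le_add (le_refl (s0 * L)) h6) (le_of_eq ?_)
  rw [hs0, hκ]
  field_simp
  ring

end Pool.Agent.N376.LM
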